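import Pool.Agent.Helper80.LP.Sup

/-!
# The norms of order `p` are the norms of Mathlib (helper23, MP_b6b996_nt)
-/

set_option autoImplicit false

namespace Pool.Agent.Helper23.LP

open MeasureTheory
open Pool.Agent.Helper92.GB (F)
open Pool.Agent.Helper80.LP (nrm mo F_cont nrm_nonneg mo_nonneg sup1 le_sup1 sup1_le sup1_nonneg)

lemma memLp23 (p : ENNReal) (u : ℝ → ℂ) (hu : Continuous u) :
    MemLp u p (volume.restrict (Set.Icc (0 : ℝ) 1)) := by
  obtain ⟨C, hC⟩ := isCompact_Icc.exists_bound_of_continuousOn (s := Set.Icc (0 : ℝ) 1) (f := u) hu.continuousOn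
  refine MemLp.of_bound hu.aestronglyMeasurable C ?_
  rw [ae_restrict_iff' measurableSet_Icc]
  exact ae_of_all _ fun x hx => hC x hx

/-- finite orders -/
theorem norm_fin {p : ENNReal} (h0 : p ≠ 0) (ht : p ≠ ⊤) (g : ℕ → ℤ) (N : ℕ) :
    (eLpNorm (F g N) p (volume.restrict (Set.Icc (0 : ℝ) 1))).toReal = nrm p.toReal g N := by
  have hm := memLp23 p (F g N) (F_cont g N)
  rw [hm.eLpNorm_eq_integral_rpow_norm h0 ht]
  unfold Pool.Agent.Helper80.LP.nrm Pool.Agent.Helper80.LP.mo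
  rw [intervalIntegral.integral_of_le zero_le_one, ← integral_Icc_eq_integral_Ioc, one_div,
    ENNReal.toReal_ofReal]
  exact Real.rpow_nonneg (integral_nonneg fun x => Real.rpow_nonneg (norm_nonneg _) _) _

/-- the maximum -/
theorem norm_top (g : ℕ → ℤ) (N : ℕ) :
    (eLpNorm (F g N) ⊤ (volume.restrict (Set.Icc (0 : ℝ) 1))).toReal = sup1 g N := by
  have hm := memLp23 ⊤ (F g N) (F_cont g N)
  have hfin : eLpNorm (F g N) ⊤ (volume.restrict (Set.Icc (0 : ℝ) 1)) ≠ ⊤ := hm.eLpNorm_ne_top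
  refine le_antisymm ?_ ?_
  · refine ENNReal.toReal_le_of_le_ofReal (sup1_nonneg g N) ?_
    rw [eLpNorm_exponent_top]
    refine eLpNormEssSup_le_of_ae_bound ?_
    rw [ae_restrict_iff' measurableSet_Icc]
    exact ae_of_all _ fun x hx => le_sup1 g N hx
  · set B : ℝ := (eLpNorm (F g N) ⊤ (volume.restrict (Set.Icc (0 : ℝ) 1))).toReal with hB
    have h1 : ∀ᵐ x ∂(volume.restrict (Set.Icc (0 : ℝ) 1)), ‖F g N x‖ ≤ B := by
      filter_upwards [ae_le_eLpNormEssSup (f := F g N) (μ := volume.restrict (Set.Icc (0 : ℝ) 1))] with x hx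
      rw [← eLpNorm_exponent_top] at hx
      have h2 := ENNReal.toReal_mono hfin hx
      rwa [toReal_enorm] at h2
    rw [ae_restrict_iff' measurableSet_Icc] at h1
    have hcont : Continuous fun x => ‖F g N x‖ := (F_cont g N).norm
    have hopen : IsOpen (Set.Ioo (0 : ℝ) 1 ∩ {x | B < ‖F g N x‖}) :=
      isOpen_Ioo.inter (isOpen_lt continuous_const hcont)
    have hzero : volume (Set.Ioo (0 : ℝ) 1 ∩ {x | B < ‖F g N x‖}) = 0 := by
      rw [← nonpos_iff_eq_zero]
      refine (measure_mono ?_).trans (le_of_eq (ae_iff.1 h1))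
      rintro x ⟨hx1, hx2⟩
      rw [Set.mem_setOf_eq, Classical.not_imp, not_le]
      exact ⟨⟨hx1.1.le, hx1.2.le⟩, hx2⟩
    have hempty := (hopen.measure_eq_zero_iff volume).1 hzero
    have hIoo : Set.Ioo (0 : ℝ) 1 ⊆ {x | ‖F g N x‖ ≤ B} := by
      intro x hx
      by_contra hcon
      rw [Set.mem_setOf_eq, not_le] at hcon
      have : x ∈ Set.Ioo (0 : ℝ) 1 ∩ {x | B < ‖F g N x‖} := ⟨hx, hcon⟩
      rw [hempty] at this
      exact this
    have hcl : Set.Icc (0 : ℝ) 1 ⊆ {x | ‖F g N x‖ ≤ B} := by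
      have h3 : closure (Set.Ioo (0 : ℝ) 1) = Set.Icc (0 : ℝ) 1 := closure_Ioo zero_ne_one
      rw [← h3]
      exact closure_minimal hIoo (isClosed_le hcont continuous_const)
    exact sup1_le g N fun x hx => hcl hx

end Pool.Agent.Helper23.LP
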