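import Pool.Agent.Helper80.LP.CutD

/-!
# One step of the cut (helper23, auxiliary to D3, MP_b6b996_nt)
-/

set_option autoImplicit false

namespace Pool.Agent.Helper23.LP

open Pool.Agent.Helper80.LP (cut idx Cho)

/-- Moving the cut by one changes the sign function at most at `y + 1`. -/
theorem cut_step {z : ℕ → ℕ} {L B : ℕ → Finset ℕ} (s : ℕ → Cho) (f : ℕ → ℤˣ) (j : ℕ) (ab : ℤˣ × ℤˣ) (y n : ℕ)
    (hn : n ≠ y + 1) :
    cut z L B (Function.update s j (ab, y)) f n = cut z L B (Function.update s j (ab, y + 1)) f n := by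
  unfold Pool.Agent.Helper80.LP.cut
  by_cases hj : idx z n = j
  · rw [hj, Function.update_self, Function.update_self]
    have h1 : (n ≤ y) ↔ (n ≤ y + 1) := by omega
    simp only [h1]
  · rw [Function.update_of_ne hj, Function.update_of_ne hj]

/-- ... and nowhere if `y + 1` is not in `B j`. -/
theorem cut_step' {z : ℕ → ℕ} {L B : ℕ → Finset ℕ} (s : ℕ → Cho) (f : ℕ → ℤˣ) (j : ℕ) (ab : ℤˣ × ℤˣ) (y : ℕ)
    (hy : y + 1 ∉ B j) :
    cut z L B (Function.update s j (ab, y)) f = cut z L B (Function.update s j (ab, y + 1)) f := by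
  funext n
  by_cases hn : n = y + 1
  · subst hn
    unfold Pool.Agent.Helper80.LP.cut
    by_cases hj : idx z (y + 1) = j
    · rw [hj, Function.update_self, Function.update_self, if_neg hy, if_neg hy]
    · rw [Function.update_of_ne hj, Function.update_of_ne hj]
  · exact cut_step s f j ab y n hn

/-- The sign function below `N` depends only on the choices `s i` of the blocks with `3 z_i < N`. -/
theorem cut_congr {z : ℕ → ℕ} {L B : ℕ → Finset ℕ} (s s' : ℕ → Cho) (f : ℕ → ℤˣ) (n : ℕ)
    (h : s (idx z n) = s' (idx z n)) : cut z L B s f n = cut z L B s' f n := by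
  unfold Pool.Agent.Helper80.LP.cut
  rw [h]

end Pool.Agent.Helper23.LP
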