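import Pool.Agent.Helper80.LP.Th

/-!
# Block NC (helper23): one changed sign in the norm of order `p` (MP_b6b996_nt)
-/

set_option autoImplicit false

namespace Pool.Agent.Helper23.LP

open Finset MeasureTheory
open Pool.Agent.Helper92.GB (F e ext)
open Pool.Agent.Helper80.LP (nrm mo F_cont nrm_nonneg mo_nonneg)

/-- Minkowski's inequality on the unit interval. -/
theorem mink23 {p : ℝ} (hp : 1 ≤ p) (f g : ℝ → ℂ) (hf : Continuous f) (hg : Continuous g) :
    (∫ x in (0 : ℝ)..1, ‖f x + g x‖ ^ p) ^ (1 / p) ≤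
      (∫ x in (0 : ℝ)..1, ‖f x‖ ^ p) ^ (1 / p) + (∫ x in (0 : ℝ)..1, ‖g x‖ ^ p) ^ (1 / p) := by
  have hp0 : 0 < p := by linarith
  set P : ENNReal := ENNReal.ofReal p with hP
  have hP0 : P ≠ 0 := by rw [hP]; simpa using hp0
  have hPt : P ≠ ⊤ := ENNReal.ofReal_ne_top
  have hP1 : 1 ≤ P := by rw [hP]; exact ENNReal.one_le_ofReal.2 hp
  have hPr : P.toReal = p := ENNReal.toReal_ofReal hp0.le
  set μ : Measure ℝ := volume.restrict (Set.Ioc (0 : ℝ) 1) with hμ
  have hmem : ∀ u : ℝ → ℂ, Continuous u → MemLp u P μ := by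
    intro u hu
    obtain ⟨C, hC⟩ := isCompact_Icc.exists_bound_of_continuousOn (s := Set.Icc (0 : ℝ) 1) (f := u) hu.continuousOn
    refine MemLp.of_bound hu.aestronglyMeasurable C ?_
    rw [hμ, ae_restrict_iff' measurableSet_Ioc]
    exact ae_of_all _ fun x hx => hC x ⟨hx.1.le, hx.2⟩
  have hnn : ∀ u : ℝ → ℂ, Continuous u →
      eLpNorm u P μ = ENNReal.ofReal ((∫ x in (0 : ℝ)..1, ‖u x‖ ^ p) ^ (1 / p)) := by
    intro u hu
    rw [(hmem u hu).eLpNorm_eq_integral_rpow_norm hP0 hPt, hPr, intervalIntegral.integral_of_le zero_le_one,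
      one_div]
  have h0 : ∀ u : ℝ → ℂ, 0 ≤ (∫ x in (0 : ℝ)..1, ‖u x‖ ^ p) ^ (1 / p) := fun u =>
    Real.rpow_nonneg (intervalIntegral.integral_nonneg zero_le_one fun x _ =>
      Real.rpow_nonneg (norm_nonneg _) _) _
  have h1 := eLpNorm_add_le (μ := μ) (p := P) hf.aestronglyMeasurable hg.aestronglyMeasurable hP1
  rw [hnn f hf, hnn g hg, ← ENNReal.ofReal_add (h0 f) (h0 g)] at h1
  have h2 : eLpNorm (f + g) P μ = ENNReal.ofReal ((∫ x in (0 : ℝ)..1, ‖f x + g x‖ ^ p) ^ (1 / p)) :=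
    hnn (fun x => f x + g x) (hf.add hg)
  rw [h2] at h1
  exact (ENNReal.ofReal_le_ofReal_iff (add_nonneg (h0 f) (h0 g))).1 h1

lemma e_per23 (m : ℕ) (x : ℝ) : e (m * (x + 1)) = e (m * x) := by
  unfold Pool.Agent.Helper92.GB.e
  rw [Complex.exp_eq_exp_iff_exists_int]
  exact ⟨m, by push_cast; ring⟩

lemma F_per23 (g : ℕ → ℤ) (M : ℕ) : Function.Periodic (F g M) 1 := by
  intro x
  unfold Pool.Agent.Helper92.GB.F
  refine Finset.sum_congr rfl fun n _ => ?_
  rw [e_per23]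

/-- The integral over the unit interval is invariant under dilations. -/
theorem dil23 (φ : ℝ → ℝ) (hφ : Continuous φ) (hper : Function.Periodic φ 1) (q : ℕ) (hq : 1 ≤ q) :
    ∫ x in (0 : ℝ)..1, φ (q * x) = ∫ x in (0 : ℝ)..1, φ x := by
  have hq0 : (q : ℝ) ≠ 0 := by
    have : (1 : ℝ) ≤ q := by exact_mod_cast hq
    linarith
  have h2 := hper.intervalIntegral_add_zsmul_eq (q : ℤ) 0 (fun a b => hφ.intervalIntegrable a b)
  simp only [zero_add, zsmul_eq_mul, Int.cast_natCast, mul_one] at h2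
  rw [intervalIntegral.integral_comp_mul_left φ hq0, mul_zero, mul_one, h2, smul_eq_mul]
  field_simp

lemma nrm_dil23 {p : ℝ} (hp : 1 ≤ p) (g : ℕ → ℤ) (M q : ℕ) (hq : 1 ≤ q) :
    (∫ x in (0 : ℝ)..1, ‖F g M (q * x)‖ ^ p) ^ (1 / p) = nrm p g M := by
  unfold Pool.Agent.Helper80.LP.nrm Pool.Agent.Helper80.LP.mo
  rw [dil23 (fun x => ‖F g M x‖ ^ p) (Pool.Agent.Helper80.LP.F_rpow_cont g M (by linarith)) ?_ q hq]
  intro x
  simp only [F_per23 g M x]

/-- The part of `ext b` off the multiples of `q`. -/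
noncomputable def off23 (b : ℕ → ℤ) (q n : ℕ) : ℤ := if q ∣ n then 0 else ext b n

lemma ext_mul23 (b : ℕ → ℤ) {q m : ℕ} (hq : q.Prime) (hm : ¬ q ∣ m) : ext b (q * m) = b q * ext b m := by
  have hc : Nat.Coprime q m := (Nat.Prime.coprime_iff_not_dvd hq).2 hm
  have hm0 : m ≠ 0 := by rintro rfl; exact hm (dvd_zero q)
  unfold Pool.Agent.Helper92.GB.ext
  by_cases hs : Squarefree m
  · have h1 : Squarefree (q * m) := (Nat.squarefree_mul hc).2 ⟨hq.squarefree, hs⟩
    rw [if_pos h1, if_pos hs, Nat.primeFactors_mul hq.ne_zero hm0, hq.primeFactors,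
      Finset.prod_union (by
        rw [Finset.disjoint_singleton_left]
        exact fun h => hm (Nat.dvd_of_mem_primeFactors h)), Finset.prod_singleton]
  · have h1 : ¬ Squarefree (q * m) := fun h => hs ((Nat.squarefree_mul hc).1 h).2
    rw [if_neg h1, if_neg hs, mul_zero]

lemma ext_sq23 (b : ℕ → ℤ) {q m : ℕ} (hq : q.Prime) (hm : q ∣ m) : ext b (q * m) = 0 := by
  unfold Pool.Agent.Helper92.GB.ext
  rw [if_neg]
  intro h
  have h2 : q * q ∣ q * m := Nat.mul_dvd_mul_left q hm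
  exact hq.one_lt.ne' (Nat.isUnit_iff.1 (h q h2))

/-- The exponential sum split at the multiples of `q`. -/
lemma F_split23 (b : ℕ → ℤ) {q : ℕ} (hq : q.Prime) (M : ℕ) (x : ℝ) :
    F (ext b) M x = F (off23 b q) M x + (b q : ℂ) * F (off23 b q) (M / q) (q * x) := by
  unfold Pool.Agent.Helper92.GB.F
  have h1 : ∑ n ∈ Icc 1 M, ((ext b n : ℤ) : ℂ) * e (n * x) =
      ∑ n ∈ Icc 1 M, ((off23 b q n : ℤ) : ℂ) * e (n * x) +
        ∑ n ∈ (Icc 1 M).filter (fun n => q ∣ n), ((ext b n : ℤ) : ℂ) * e (n * x) := by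
    rw [Finset.sum_filter, ← Finset.sum_add_distrib]
    refine Finset.sum_congr rfl fun n _ => ?_
    unfold off23
    by_cases h : q ∣ n
    · simp [h]
    · simp [h]
  rw [h1]
  congr 1
  rw [Finset.mul_sum]
  symm
  refine Finset.sum_nbij' (fun m => q * m) (fun n => n / q) ?_ ?_ ?_ ?_ ?_
  · intro m hm
    rw [Finset.mem_Icc] at hm
    rw [Finset.mem_filter, Finset.mem_Icc]
    refine ⟨⟨Nat.mul_pos hq.pos hm.1, ?_⟩, dvd_mul_right q m⟩
    calc q * m ≤ q * (M / q) := Nat.mul_le_mul_left q hm.2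
      _ ≤ M := Nat.mul_div_le M q
  · intro n hn
    rw [Finset.mem_filter, Finset.mem_Icc] at hn
    rw [Finset.mem_Icc]
    refine ⟨Nat.div_pos (Nat.le_of_dvd (by omega) hn.2) hq.pos, Nat.div_le_div_right hn.1.2⟩
  · intro m _
    exact Nat.mul_div_cancel_left m hq.pos
  · intro n hn
    rw [Finset.mem_filter] at hn
    exact Nat.mul_div_cancel' hn.2
  · intro m _
    have h2 : e ((m : ℝ) * (q * x)) = e (((q * m : ℕ) : ℝ) * x) := by
      congr 1
      push_cast
      ring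
    rw [h2]
    unfold off23
    by_cases h : q ∣ m
    · rw [if_pos h, ext_sq23 b hq h]
      simp
    · rw [if_neg h, ext_mul23 b hq h]
      push_cast
      ring

lemma nrm_zero23 {p : ℝ} (hp : 1 ≤ p) (g : ℕ → ℤ) : nrm p g 0 = 0 := by
  have h : ∀ x : ℝ, F g 0 x = 0 := fun x => by
    unfold Pool.Agent.Helper92.GB.F
    simp
  unfold Pool.Agent.Helper80.LP.nrm Pool.Agent.Helper80.LP.mo
  have hp0 : p ≠ 0 := by linarith
  simp only [h, norm_zero, Real.zero_rpow hp0, intervalIntegral.integral_zero]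
  exact Real.zero_rpow (by positivity)

/-- The sum off the multiples of `q`. -/
lemma nrm_off23 {p : ℝ} (hp : 1 ≤ p) (b : ℕ → ℤ) (hb : ∀ n, b n = 1 ∨ b n = -1)
    (q : ℕ) (hq : q.Prime) (h4 : 4 ≤ q) (t : ℝ) (ht : 1 / 2 ≤ t) (C : ℝ) (hC : 0 ≤ C)
    (N : ℕ) (hbd : ∀ M : ℕ, 1 ≤ M → M ≤ N → nrm p (ext b) M ≤ C * (M : ℝ) ^ t) :
    ∀ M : ℕ, M ≤ N → nrm p (off23 b q) M ≤ 2 * C * (M : ℝ) ^ t := by
  intro M
  induction M using Nat.strong_induction_on with
  | _ M ih =>
    intro hM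
    rcases Nat.eq_zero_or_pos M with h0 | h0
    · subst h0
      rw [nrm_zero23 hp]
      positivity
    · have hq0 : (0 : ℝ) < q := by exact_mod_cast hq.pos
      have h1 := ih (M / q) (Nat.div_lt_self h0 hq.one_lt) ((Nat.div_le_self M q).trans hM)
      have h2 : ((M / q : ℕ) : ℝ) ^ t ≤ (M : ℝ) ^ t / (q : ℝ) ^ t := by
        rw [← Real.div_rpow (by positivity) hq0.le]
        exact Real.rpow_le_rpow (by positivity) Nat.cast_div_le (by linarith)
      have h3 : (2 : ℝ) ≤ (q : ℝ) ^ t := by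
        have h4' : (4 : ℝ) ≤ q := by exact_mod_cast h4
        calc (2 : ℝ) = (4 : ℝ) ^ (1 / 2 : ℝ) := by
              rw [show (4 : ℝ) = 2 ^ (2 : ℝ) by norm_num, ← Real.rpow_mul (by norm_num)]
              norm_num
          _ ≤ (4 : ℝ) ^ t := Real.rpow_le_rpow_of_exponent_le (by norm_num) ht
          _ ≤ (q : ℝ) ^ t := Real.rpow_le_rpow (by norm_num) h4' (by linarith)
      have h5 : ((M / q : ℕ) : ℝ) ^ t ≤ (M : ℝ) ^ t / 2 := by
        refine h2.trans ?_
        gcongr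
      have h6 : nrm p (off23 b q) M ≤ nrm p (ext b) M + nrm p (off23 b q) (M / q) := by
        have e1 : ∀ x : ℝ, F (off23 b q) M x = F (ext b) M x + (-(b q : ℂ)) * F (off23 b q) (M / q) (q * x) := by
          intro x
          rw [F_split23 b hq M x]
          ring
        have e2 := mink23 hp (F (ext b) M) (fun x => (-(b q : ℂ)) * F (off23 b q) (M / q) (q * x))
          (F_cont _ _) (continuous_const.mul ((F_cont _ _).comp (continuous_const.mul continuous_id)))
        have e3 : ∀ x : ℝ, ‖(-(b q : ℂ)) * F (off23 b q) (M / q) (q * x)‖ = ‖F (off23 b q) (M / q) (q * x)‖ := by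
          intro x
          rw [norm_mul, norm_neg]
          rcases hb q with h | h <;> rw [h] <;> simp
        simp only [e3] at e2
        rw [nrm_dil23 hp _ _ q hq.one_lt.le] at e2
        simp only [← e1] at e2
        exact e2
      have h7 := hbd M h0 hM
      calc nrm p (off23 b q) M ≤ nrm p (ext b) M + nrm p (off23 b q) (M / q) := h6
        _ ≤ C * (M : ℝ) ^ t + 2 * C * ((M : ℝ) ^ t / 2) := by
            refine add_le_add h7 (h1.trans ?_)
            gcongr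
        _ = 2 * C * (M : ℝ) ^ t := by ring

/-- (E) One changed sign. -/
theorem nrm_change {p : ℝ} (hp : 1 ≤ p) (a b : ℕ → ℤ) (ha : ∀ n, a n = 1 ∨ a n = -1) (hb : ∀ n, b n = 1 ∨ b n = -1)
    (q : ℕ) (hq : q.Prime) (h4 : 4 ≤ q) (hab : ∀ n, n ≠ q → a n = b n) (t : ℝ) (ht : 1 / 2 ≤ t) (C : ℝ) (hC : 0 ≤ C)
    (N : ℕ) (hN : 1 ≤ N) (hbd : ∀ M : ℕ, 1 ≤ M → M ≤ N → nrm p (ext b) M ≤ C * (M : ℝ) ^ t) :
    nrm p (ext a) N ≤ nrm p (ext b) N + 4 * C * ((N : ℝ) / q) ^ t := by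
  have hq0 : (0 : ℝ) < q := by exact_mod_cast hq.pos
  have hoff : off23 a q = off23 b q := by
    funext n
    unfold off23
    by_cases h : q ∣ n
    · rw [if_pos h, if_pos h]
    · rw [if_neg h, if_neg h]
      unfold Pool.Agent.Helper92.GB.ext
      by_cases hs : Squarefree n
      · rw [if_pos hs, if_pos hs]
        refine Finset.prod_congr rfl fun r hr => hab r ?_
        rintro rfl
        exact h (Nat.dvd_of_mem_primeFactors hr)
      · rw [if_neg hs, if_neg hs]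
  have e1 : ∀ x : ℝ, F (ext a) N x = F (ext b) N x +
      ((a q : ℂ) - (b q : ℂ)) * F (off23 b q) (N / q) (q * x) := by
    intro x
    rw [F_split23 a hq N x, F_split23 b hq N x, hoff]
    ring
  have e2 := mink23 hp (F (ext b) N) (fun x => ((a q : ℂ) - (b q : ℂ)) * F (off23 b q) (N / q) (q * x))
    (F_cont _ _) (continuous_const.mul ((F_cont _ _).comp (continuous_const.mul continuous_id)))
  simp only [← e1] at e2
  have e4 : ‖((a q : ℂ) - (b q : ℂ))‖ ≤ 2 := by
    rcases ha q with h | h <;> rcases hb q with h' | h' <;> rw [h, h'] <;> norm_num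
  have hp0 : 0 < p := by linarith
  have e3 : (∫ x in (0 : ℝ)..1, ‖((a q : ℂ) - (b q : ℂ)) * F (off23 b q) (N / q) (q * x)‖ ^ p) ^ (1 / p) ≤
      2 * nrm p (off23 b q) (N / q) := by
    have f1 : ∫ x in (0 : ℝ)..1, ‖((a q : ℂ) - (b q : ℂ)) * F (off23 b q) (N / q) (q * x)‖ ^ p ≤
        2 ^ p * ∫ x in (0 : ℝ)..1, ‖F (off23 b q) (N / q) (q * x)‖ ^ p := by
      rw [← intervalIntegral.integral_const_mul]
      refine intervalIntegral.integral_mono_on zero_le_one ?_ ?_ ?_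
      · exact ((continuous_const.mul ((F_cont _ _).comp (continuous_const.mul continuous_id))).norm.rpow_const
          fun _ => Or.inr hp0.le).intervalIntegrable _ _
      · exact (continuous_const.mul (((F_cont _ _).comp (continuous_const.mul continuous_id)).norm.rpow_const
          fun _ => Or.inr hp0.le)).intervalIntegrable _ _
      · intro x _
        rw [norm_mul, Real.mul_rpow (norm_nonneg _) (norm_nonneg _)]
        gcongr
    have f2 : 0 ≤ ∫ x in (0 : ℝ)..1, ‖((a q : ℂ) - (b q : ℂ)) * F (off23 b q) (N / q) (q * x)‖ ^ p :=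
      intervalIntegral.integral_nonneg zero_le_one fun x _ => Real.rpow_nonneg (norm_nonneg _) _
    have f3 : 0 ≤ ∫ x in (0 : ℝ)..1, ‖F (off23 b q) (N / q) (q * x)‖ ^ p :=
      intervalIntegral.integral_nonneg zero_le_one fun x _ => Real.rpow_nonneg (norm_nonneg _) _
    refine (Real.rpow_le_rpow f2 f1 (by positivity)).trans (le_of_eq ?_)
    rw [Real.mul_rpow (by positivity) f3, nrm_dil23 hp _ _ q hq.one_lt.le, ← Real.rpow_mul (by norm_num),
      mul_one_div_cancel hp0.ne', Real.rpow_one]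
  have h5 := nrm_off23 hp b hb q hq h4 t ht C hC N hbd (N / q) (Nat.div_le_self N q)
  have h6 : ((N / q : ℕ) : ℝ) ^ t ≤ ((N : ℝ) / q) ^ t :=
    Real.rpow_le_rpow (by positivity) Nat.cast_div_le (by linarith)
  have h7 : nrm p (ext a) N ≤ nrm p (ext b) N +
      (∫ x in (0 : ℝ)..1, ‖((a q : ℂ) - (b q : ℂ)) * F (off23 b q) (N / q) (q * x)‖ ^ p) ^ (1 / p) := e2
  calc nrm p (ext a) N ≤ nrm p (ext b) N + 2 * nrm p (off23 b q) (N / q) := h7.trans (by linarith)
    _ ≤ nrm p (ext b) N + 2 * (2 * C * ((N / q : ℕ) : ℝ) ^ t) := by linarith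
    _ ≤ nrm p (ext b) N + 2 * (2 * C * ((N : ℝ) / q) ^ t) := by gcongr
    _ = nrm p (ext b) N + 4 * C * ((N : ℝ) / q) ^ t := by ring

end Pool.Agent.Helper23.LP
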